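import Pool.Agent.H706.WR.Tree

/-! The rooted trees used to approximate the roots. -/

namespace Pool.Agent.H706.WR

open SimpleGraph

/-- The vertices: the root, `3 N` paths with `H` vertices, and the leaves. -/
abbrev Vtx (N H : ℕ) (L : Fin 3 → ℕ) :=
  Option ((Fin 3 × Fin N × Fin H) ⊕ (Σ c : Fin 3, Fin N × Fin (L c)))

section

variable {N H : ℕ} {L : Fin 3 → ℕ} {h : Fin 3 → ℕ}

def prt (hH : ∀ c, h c ≤ H) : Vtx N H L → Vtx N H L
  | none => none
  | some (Sum.inl (c, i, j)) =>
      if j.1 = 0 then none else some (Sum.inl (c, i, ⟨j.1 - 1, by omega⟩))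
  | some (Sum.inr ⟨c, i, _⟩) =>
      if hc : h c ≤ 1 then none else some (Sum.inl (c, i, ⟨h c - 2, by have := hH c; omega⟩))

def hgt (h : Fin 3 → ℕ) : Vtx N H L → ℕ
  | none => 0
  | some (Sum.inl (_, _, j)) => j.1 + 1
  | some (Sum.inr ⟨c, _⟩) => h c

def brc : Vtx N H L → Option (Fin 3 × Fin N)
  | none => none
  | some (Sum.inl (c, i, _)) => some (c, i)
  | some (Sum.inr ⟨c, i, _⟩) => some (c, i)

theorem hgt_prt (hH : ∀ c, h c ≤ H) (h1 : ∀ c, 1 ≤ h c) :
    ∀ v : Vtx N H L, v ≠ none → hgt h (prt hH v) + 1 = hgt h v := by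
  rintro (_ | ⟨c, i, j⟩ | ⟨c, i, l⟩) hv
  · exact absurd rfl hv
  · by_cases hj : j.1 = 0
    · simp [prt, hgt, hj]
    · simp only [prt, hj, if_false, hgt]
      omega
  · have := h1 c
    by_cases hc : h c ≤ 1
    · simp only [prt, hc, dite_true, hgt]
      omega
    · simp only [prt, hc, dite_false, hgt]
      omega

theorem brc_prt (hH : ∀ c, h c ≤ H) :
    ∀ v : Vtx N H L, v ≠ none → prt hH v = none ∨ brc (prt hH v) = brc v := by
  rintro (_ | ⟨c, i, j⟩ | ⟨c, i, l⟩) hv
  · exact absurd rfl hv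
  · by_cases hj : j.1 = 0
    · exact Or.inl (by simp [prt, hj])
    · exact Or.inr (by simp [prt, brc, hj])
  · by_cases hc : h c ≤ 1
    · exact Or.inl (by simp [prt, hc])
    · exact Or.inr (by simp [prt, brc, hc])

theorem hgt_le (hH : ∀ c, h c ≤ H) : ∀ v : Vtx N H L, hgt h v ≤ H := by
  rintro (_ | ⟨c, i, j⟩ | ⟨c, i, l⟩)
  · exact Nat.zero_le _
  · have := j.2
    simp only [hgt]
    omega
  · exact hH c

/-- The tree. -/
def tre (hH : ∀ c, h c ≤ H) : SimpleGraph (Vtx N H L) := parG none (prt hH)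

variable (hH : ∀ c, h c ≤ H) (h1 : ∀ c, 1 ≤ h c)

include h1

theorem tre_dist_le (u v : Vtx N H L) : (tre hH).dist u v ≤ 2 * H := by
  have h2 := dist_le_add (hgt_prt hH h1) u v
  have h3 := hgt_le hH u
  have h4 := hgt_le hH v
  have h5 : (tre hH).dist u v = (parG none (prt hH)).dist u v := rfl
  omega

theorem tre_dist_leaves {c c' : Fin 3} {i i' : Fin N} (l : Fin (L c)) (l' : Fin (L c'))
    (hne : (c, i) ≠ (c', i')) :
    (tre hH).dist (some (Sum.inr ⟨c, i, l⟩) : Vtx N H L) (some (Sum.inr ⟨c', i', l'⟩)) =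
      h c + h c' := by
  classical
  apply le_antisymm
  · exact dist_le_add (hgt_prt hH h1) _ _
  · have key := le_dist_of_lipschitz (hgt_prt hH h1)
      (fun v : Vtx N H L => if brc v = some (c, i) then h c - hgt h v else h c + hgt h v) ?_
      (some (Sum.inr ⟨c, i, l⟩)) (some (Sum.inr ⟨c', i', l'⟩))
    · have e1 : brc (some (Sum.inr ⟨c, i, l⟩) : Vtx N H L) = some (c, i) := rfl
      have e2 : brc (some (Sum.inr ⟨c', i', l'⟩) : Vtx N H L) ≠ some (c, i) := by
        intro h'
        apply hne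
        exact (Option.some.inj h').symm
      have e3 : hgt h (some (Sum.inr ⟨c, i, l⟩) : Vtx N H L) = h c := rfl
      have e4 : hgt h (some (Sum.inr ⟨c', i', l'⟩) : Vtx N H L) = h c' := rfl
      simp only [e1, e2, e3, e4, if_true, if_false, Nat.sub_self, Nat.zero_add] at key
      exact key
    · intro v hv
      have h2 := hgt_prt hH h1 v hv
      rcases brc_prt hH v hv with h3 | h3
      · have e5 : brc (prt hH v) ≠ some (c, i) := by rw [h3]; simp [brc]
        have e6 : hgt h (prt hH v) = 0 := by rw [h3]; rfl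
        have h4 := h1 c
        by_cases h5 : brc v = some (c, i)
        · simp only [h5, e5, if_true, if_false]
          omega
        · simp only [h5, e5, if_false]
          omega
      · simp only [h3]
        by_cases h5 : brc v = some (c, i)
        · simp only [h5, if_true]
          omega
        · simp only [h5, if_false]
          omega

theorem tre_isTree : (tre hH : SimpleGraph (Vtx N H L)).IsTree := isTree (hgt_prt hH h1)

end

end Pool.Agent.H706.WR
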