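import Pool.Agent.H706.WR.Broom

/-! Sums over pairs of vertices. -/

namespace Pool.Agent.H706.WR

open SimpleGraph Finset

section

variable {N H : ℕ} {L : Fin 3 → ℕ} {h : Fin 3 → ℕ}

theorem sum_vtx {M : Type*} [AddCommMonoid M] (F : Vtx N H L → M) :
    ∑ v, F v = F none + (∑ c : Fin 3, ∑ i : Fin N, ∑ j : Fin H, F (some (Sum.inl (c, i, j))) +
      ∑ c : Fin 3, ∑ i : Fin N, ∑ l : Fin (L c), F (some (Sum.inr ⟨c, i, l⟩))) := by
  rw [Fintype.sum_option, Fintype.sum_sum_type, Fintype.sum_sigma]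
  simp only [Fintype.sum_prod_type]

/-- The indicator of the vertices which are not leaves. -/
def nl : Vtx N H L → ℝ
  | none => 1
  | some (Sum.inl _) => 1
  | some (Sum.inr _) => 0

/-- The indicator of the pairs of leaves of one branch. -/
def sm : Vtx N H L → Vtx N H L → ℝ
  | some (Sum.inr ⟨c, i, _⟩), some (Sum.inr ⟨c', i', _⟩) => if c = c' ∧ i = i' then 1 else 0
  | _, _ => 0

/-- The weight of the leaves. -/
def lw (h : Fin 3 → ℕ) (z : ℂ) : Vtx N H L → ℂ
  | some (Sum.inr ⟨c, _⟩) => z ^ h c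
  | _ => 0

theorem sum_nl : ∑ v : Vtx N H L, nl v = 1 + 3 * N * H := by
  rw [sum_vtx]
  simp [nl]
  ring

theorem sum_one : ∑ _v : Vtx N H L, (1 : ℝ) = 1 + 3 * N * H + N * (L 0 + L 1 + L 2) := by
  rw [sum_vtx]
  simp [Fin.sum_univ_three]
  ring

theorem sum_lw (z : ℂ) : ∑ v : Vtx N H L, lw h z v =
    N * (L 0 * z ^ h 0 + L 1 * z ^ h 1 + L 2 * z ^ h 2) := by
  rw [sum_vtx]
  simp [lw, Fin.sum_univ_three]
  ring

theorem sum_sm_leaf (c : Fin 3) (i : Fin N) (l : Fin (L c)) :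
    ∑ v : Vtx N H L, sm (some (Sum.inr ⟨c, i, l⟩)) v = L c := by
  classical
  rw [sum_vtx]
  have e1 : sm (some (Sum.inr ⟨c, i, l⟩) : Vtx N H L) none = 0 := rfl
  have e2 : ∀ (c' : Fin 3) (i' : Fin N) (j' : Fin H),
      sm (some (Sum.inr ⟨c, i, l⟩) : Vtx N H L) (some (Sum.inl (c', i', j'))) = 0 :=
    fun _ _ _ => rfl
  have e3 : ∀ (c' : Fin 3) (i' : Fin N) (l' : Fin (L c')),
      sm (some (Sum.inr ⟨c, i, l⟩) : Vtx N H L) (some (Sum.inr ⟨c', i', l'⟩)) =
        if c = c' then (if i = i' then 1 else 0) else 0 := by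
    intro c' i' l'
    change (if c = c' ∧ i = i' then (1 : ℝ) else 0) = _
    by_cases h1 : c = c' <;> by_cases h2 : i = i' <;> simp [h1, h2]
  simp only [e1, e2, e3, sum_const_zero, zero_add, sum_const, card_univ, Fintype.card_fin,
    nsmul_eq_mul]
  rw [Finset.sum_eq_single c]
  · rw [Finset.sum_eq_single i]
    · simp
    · intro b _ hb
      simp [Ne.symm hb]
    · simp
  · intro b _ hb
    simp [Ne.symm hb]
  · simp

theorem sum_sm : ∑ u : Vtx N H L, ∑ v : Vtx N H L, sm u v =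
    N * ((L 0 : ℝ) ^ 2 + (L 1 : ℝ) ^ 2 + (L 2 : ℝ) ^ 2) := by
  rw [sum_vtx]
  simp only [sum_sm_leaf]
  have e1 : ∀ v : Vtx N H L, sm none v = 0 := fun _ => rfl
  have e2 : ∀ (c' : Fin 3) (i' : Fin N) (j' : Fin H) (v : Vtx N H L),
      sm (some (Sum.inl (c', i', j'))) v = 0 := fun _ _ _ _ => rfl
  simp only [e1, e2, sum_const_zero, zero_add, sum_const, card_univ, Fintype.card_fin,
    nsmul_eq_mul, Fin.sum_univ_three]
  ring

theorem nl_nonneg (v : Vtx N H L) : 0 ≤ nl v := by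
  rcases v with (_ | _ | _) <;> simp [nl]

theorem sm_nonneg (u v : Vtx N H L) : 0 ≤ sm u v := by
  unfold sm
  split
  · split_ifs <;> norm_num
  · exact le_rfl

theorem norm_lw_le (hH : ∀ c, h c ≤ H) (z : ℂ) (v : Vtx N H L) :
    ‖lw h z v‖ ≤ (max 1 ‖z‖) ^ H := by
  have h0 : (0 : ℝ) ≤ (max 1 ‖z‖) ^ H := by positivity
  rcases v with (_ | _ | ⟨c, _⟩)
  · simpa [lw] using h0
  · simpa [lw] using h0
  · simp only [lw, norm_pow]
    calc ‖z‖ ^ h c ≤ (max 1 ‖z‖) ^ h c := pow_le_pow_left₀ (norm_nonneg _) (le_max_right _ _) _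
      _ ≤ (max 1 ‖z‖) ^ H := pow_le_pow_right₀ (le_max_left _ _) (hH c)

open Classical in
/-- The sum of `z ^ dist` over the ordered pairs of distinct vertices. -/
noncomputable def osum {V : Type*} [Fintype V] (G : SimpleGraph V) (z : ℂ) : ℂ :=
  ∑ u : V, ∑ v : V, if u = v then 0 else z ^ G.dist u v

variable (hH : ∀ c, h c ≤ H) (h1 : ∀ c, 1 ≤ h c)

include h1

open Classical in
theorem term_bound (z : ℂ) (u v : Vtx N H L) :
    ‖(if u = v then 0 else z ^ (tre hH).dist u v) - lw h z u * lw h z v‖ ≤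
      (2 * (max 1 ‖z‖) ^ (2 * H)) * (nl u + nl v + sm u v) := by
  have hR : (1 : ℝ) ≤ max 1 ‖z‖ := le_max_left _ _
  have h0 : (0 : ℝ) ≤ (max 1 ‖z‖) ^ (2 * H) := by positivity
  have hA : ‖(if u = v then 0 else z ^ (tre hH).dist u v)‖ ≤ (max 1 ‖z‖) ^ (2 * H) := by
    split_ifs with huv
    · simpa using h0
    · rw [norm_pow]
      calc ‖z‖ ^ (tre hH).dist u v ≤ (max 1 ‖z‖) ^ (tre hH).dist u v :=
            pow_le_pow_left₀ (norm_nonneg _) (le_max_right _ _) _
        _ ≤ (max 1 ‖z‖) ^ (2 * H) := pow_le_pow_right₀ hR (tre_dist_le hH h1 u v)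
  have hB : ‖lw h z u * lw h z v‖ ≤ (max 1 ‖z‖) ^ (2 * H) := by
    rw [norm_mul, two_mul, pow_add]
    exact mul_le_mul (norm_lw_le hH z u) (norm_lw_le hH z v) (norm_nonneg _) (by positivity)
  have hC : ‖(if u = v then 0 else z ^ (tre hH).dist u v) - lw h z u * lw h z v‖ ≤
      2 * (max 1 ‖z‖) ^ (2 * H) := by
    refine (norm_sub_le _ _).trans ?_
    linarith
  have hD : 1 ≤ nl u + nl v + sm u v ∨
      ((if u = v then 0 else z ^ (tre hH).dist u v) - lw h z u * lw h z v) = 0 := by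
    rcases u with (_ | u | ⟨c, i, l⟩)
    · left
      have := nl_nonneg v
      have h2 := sm_nonneg (none : Vtx N H L) v
      have : nl (none : Vtx N H L) = 1 := rfl
      linarith
    · left
      have := nl_nonneg v
      have h2 := sm_nonneg (some (Sum.inl u) : Vtx N H L) v
      have : nl (some (Sum.inl u) : Vtx N H L) = 1 := rfl
      linarith
    · rcases v with (_ | v | ⟨c', i', l'⟩)
      · left
        have h3 := nl_nonneg (some (Sum.inr ⟨c, i, l⟩) : Vtx N H L)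
        have h2 := sm_nonneg (some (Sum.inr ⟨c, i, l⟩) : Vtx N H L) none
        have : nl (none : Vtx N H L) = 1 := rfl
        linarith
      · left
        have h3 := nl_nonneg (some (Sum.inr ⟨c, i, l⟩) : Vtx N H L)
        have h2 := sm_nonneg (some (Sum.inr ⟨c, i, l⟩) : Vtx N H L) (some (Sum.inl v))
        have : nl (some (Sum.inl v) : Vtx N H L) = 1 := rfl
        linarith
      · by_cases hci : c = c' ∧ i = i'
        · left
          have e1 : sm (some (Sum.inr ⟨c, i, l⟩) : Vtx N H L) (some (Sum.inr ⟨c', i', l'⟩)) = 1 :=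
            if_pos hci
          have e2 : nl (some (Sum.inr ⟨c, i, l⟩) : Vtx N H L) = 0 := rfl
          have e3 : nl (some (Sum.inr ⟨c', i', l'⟩) : Vtx N H L) = 0 := rfl
          rw [e1, e2, e3]
          norm_num
        · right
          have hne : (c, i) ≠ (c', i') := fun h => hci (Prod.mk.inj h)
          have huv : (some (Sum.inr ⟨c, i, l⟩) : Vtx N H L) ≠ some (Sum.inr ⟨c', i', l'⟩) := by
            intro h
            apply hne
            exact Option.some.inj (congrArg brc h)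
          rw [if_neg huv, tre_dist_leaves hH h1 l l' hne]
          simp only [lw]
          rw [pow_add, sub_self]
  rcases hD with hD | hD
  · calc _ ≤ 2 * (max 1 ‖z‖) ^ (2 * H) := hC
      _ = (2 * (max 1 ‖z‖) ^ (2 * H)) * 1 := (mul_one _).symm
      _ ≤ _ := by
        apply mul_le_mul_of_nonneg_left hD
        positivity
  · rw [hD, norm_zero]
    have := nl_nonneg u
    have := nl_nonneg v
    have := sm_nonneg u v
    positivity

open Classical in
theorem osum_bound (z : ℂ) :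
    ‖osum (tre hH : SimpleGraph (Vtx N H L)) z -
        (N * (L 0 * z ^ h 0 + L 1 * z ^ h 1 + L 2 * z ^ h 2)) ^ 2‖ ≤
      (2 * (max 1 ‖z‖) ^ (2 * H)) *
        (2 * (1 + 3 * N * H) * (1 + 3 * N * H + N * (L 0 + L 1 + L 2)) +
          N * ((L 0 : ℝ) ^ 2 + (L 1 : ℝ) ^ 2 + (L 2 : ℝ) ^ 2)) := by
  have e1 : osum (tre hH : SimpleGraph (Vtx N H L)) z -
        (N * (L 0 * z ^ h 0 + L 1 * z ^ h 1 + L 2 * z ^ h 2)) ^ 2 =
      ∑ u : Vtx N H L, ∑ v : Vtx N H L,
        ((if u = v then 0 else z ^ (tre hH).dist u v) - lw h z u * lw h z v) := by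
    rw [← sum_lw (H := H), sq, Finset.sum_mul_sum, osum, ← Finset.sum_sub_distrib]
    refine Finset.sum_congr rfl fun u _ => ?_
    rw [← Finset.sum_sub_distrib]
    refine Finset.sum_congr rfl fun v _ => ?_
    by_cases huv : u = v
    · rw [if_pos huv, if_pos huv]
    · rw [if_neg huv, if_neg huv]
  rw [e1]
  refine (norm_sum_le _ _).trans ?_
  have e2 : ∀ u : Vtx N H L, ‖∑ v : Vtx N H L,
        ((if u = v then 0 else z ^ (tre hH).dist u v) - lw h z u * lw h z v)‖ ≤
      ∑ v : Vtx N H L, (2 * (max 1 ‖z‖) ^ (2 * H)) * (nl u + nl v + sm u v) := fun u =>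
    (norm_sum_le _ _).trans (Finset.sum_le_sum fun v _ => term_bound hH h1 z u v)
  refine (Finset.sum_le_sum fun u _ => e2 u).trans (le_of_eq ?_)
  simp only [← Finset.mul_sum]
  congr 1
  simp only [Finset.sum_add_distrib]
  rw [sum_sm, sum_nl]
  have e3 : ∑ x : Vtx N H L, ∑ _i : Vtx N H L, nl x = (1 + 3 * N * H : ℝ) *
      (1 + 3 * N * H + N * (L 0 + L 1 + L 2)) := by
    rw [← sum_one, ← sum_nl (N := N) (H := H) (L := L), Finset.sum_mul_sum]
    simp
  have e4 : ∑ _x : Vtx N H L, (1 + 3 * N * H : ℝ) = (1 + 3 * N * H : ℝ) *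
      (1 + 3 * N * H + N * (L 0 + L 1 + L 2)) := by
    rw [← sum_one (N := N) (H := H) (L := L), Finset.mul_sum]
    simp
  rw [e3, e4]
  ring

end

section

open Classical in
/-- The polynomial whose value at `z` is `osum G z`. -/
noncomputable def opoly {V : Type*} [Fintype V] (G : SimpleGraph V) : Polynomial ℂ :=
  ∑ u : V, ∑ v : V, if u = v then 0 else Polynomial.X ^ G.dist u v

theorem eval_opoly {V : Type*} [Fintype V] (G : SimpleGraph V) (z : ℂ) :
    (opoly G).eval z = osum G z := by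
  classical
  simp only [opoly, osum, Polynomial.eval_finsetSum]
  refine Finset.sum_congr rfl fun u _ => Finset.sum_congr rfl fun v _ => ?_
  split_ifs
  · simp
  · simp

theorem natDegree_opoly_le {V : Type*} [Fintype V] (G : SimpleGraph V) (D : ℕ)
    (hD : ∀ u v, G.dist u v ≤ D) : (opoly G).natDegree ≤ D := by
  classical
  refine Polynomial.natDegree_sum_le_of_forall_le _ _ fun u _ => ?_
  refine Polynomial.natDegree_sum_le_of_forall_le _ _ fun v _ => ?_
  split_ifs
  · simp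
  · rw [Polynomial.natDegree_X_pow]
    exact hD u v

theorem coeff_opoly {V : Type*} [Fintype V] [DecidableEq V] (G : SimpleGraph V) (D : ℕ) :
    (opoly G).coeff D = ((∑ u : V, ∑ v : V, if u ≠ v ∧ G.dist u v = D then 1 else 0 : ℕ) : ℂ) := by
  simp only [opoly, Polynomial.finsetSum_coeff, Nat.cast_sum]
  refine Finset.sum_congr rfl fun u _ => Finset.sum_congr rfl fun v _ => ?_
  by_cases h : u = v
  · simp [h]
  · by_cases h2 : G.dist u v = D
    · simp [h, h2]
    · simp [h, h2, Polynomial.coeff_X_pow, Ne.symm h2]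

variable {N H : ℕ} {L : Fin 3 → ℕ} {h : Fin 3 → ℕ}

theorem leaf_sum_le (F : Vtx N H L → ℕ) :
    ∑ i : Fin N, ∑ l : Fin (L 0), F (some (Sum.inr ⟨0, i, l⟩)) ≤ ∑ v, F v := by
  rw [sum_vtx, Fin.sum_univ_three (f := fun c : Fin 3 => ∑ i : Fin N, ∑ l : Fin (L c),
    F (some (Sum.inr ⟨c, i, l⟩)))]
  omega

theorem norm_coeff_ge (hH : ∀ c, h c ≤ H) (h1 : ∀ c, 1 ≤ h c) (h0 : h 0 = H) :
    (N : ℝ) * (N - 1) * (L 0) ^ 2 ≤
      ‖(opoly (tre hH : SimpleGraph (Vtx N H L))).coeff (2 * H)‖ := by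
  rw [coeff_opoly, Complex.norm_natCast]
  have key : ∑ i : Fin N, ∑ l : Fin (L 0), ∑ i' : Fin N, ∑ l' : Fin (L 0),
      (if i ≠ i' then 1 else 0) ≤
      ∑ u : Vtx N H L, ∑ v : Vtx N H L,
        (if u ≠ v ∧ (tre hH : SimpleGraph (Vtx N H L)).dist u v = 2 * H then 1 else 0) := by
    refine le_trans ?_ (leaf_sum_le (fun u => ∑ v : Vtx N H L,
      (if u ≠ v ∧ (tre hH : SimpleGraph (Vtx N H L)).dist u v = 2 * H then 1 else 0)))
    refine Finset.sum_le_sum fun i _ => Finset.sum_le_sum fun l _ => ?_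
    refine le_trans ?_ (leaf_sum_le (fun v =>
      (if (some (Sum.inr ⟨0, i, l⟩) : Vtx N H L) ≠ v ∧ (tre hH : SimpleGraph (Vtx N H L)).dist
        (some (Sum.inr ⟨0, i, l⟩)) v = 2 * H then 1 else 0)))
    refine Finset.sum_le_sum fun i' _ => Finset.sum_le_sum fun l' _ => ?_
    by_cases hi : i = i'
    · simp [hi]
    · have hne : ((0 : Fin 3), i) ≠ (0, i') := fun h => hi (Prod.mk.inj h).2
      have huv : (some (Sum.inr ⟨0, i, l⟩) : Vtx N H L) ≠ some (Sum.inr ⟨0, i', l'⟩) := by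
        intro h
        apply hne
        exact Option.some.inj (congrArg brc h)
      have hd := tre_dist_leaves (N := N) (H := H) (L := L) hH h1 l l' hne
      rw [if_pos hi, if_pos ⟨huv, by rw [hd, h0, two_mul]⟩]
  have e1 : ∑ i : Fin N, ∑ l : Fin (L 0), ∑ i' : Fin N, ∑ l' : Fin (L 0),
      (if i ≠ i' then 1 else 0) = N * (L 0 * ((N - 1) * L 0)) := by
    have e2 : ∀ i : Fin N, ∑ i' : Fin N, ∑ l' : Fin (L 0), (if i ≠ i' then 1 else 0) =
        (N - 1) * L 0 := by
      intro i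
      simp only [sum_const, card_univ, Fintype.card_fin, smul_eq_mul]
      rw [← Finset.mul_sum, Finset.sum_ite, Finset.sum_const_zero, add_zero, Finset.sum_const,
        Finset.filter_ne, Finset.card_erase_of_mem (Finset.mem_univ _)]
      simp [mul_comm]
    rw [Finset.sum_congr rfl fun i _ => Finset.sum_congr rfl fun l _ => e2 i]
    simp only [sum_const, card_univ, Fintype.card_fin, smul_eq_mul]
  rw [e1] at key
  have key2 : ((N * (L 0 * ((N - 1) * L 0)) : ℕ) : ℝ) ≤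
      ((∑ u : Vtx N H L, ∑ v : Vtx N H L,
        (if u ≠ v ∧ (tre hH : SimpleGraph (Vtx N H L)).dist u v = 2 * H then 1 else 0) : ℕ) : ℝ) :=
    Nat.cast_le.2 key
  refine le_trans ?_ key2
  rcases Nat.eq_zero_or_pos N with h2 | h2
  · simp [h2]
  · push_cast [Nat.cast_sub h2]
    apply le_of_eq
    ring

end

end Pool.Agent.H706.WR
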