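import Mathlib

/-! Rooted trees given by a parent function and a height function. -/

namespace Pool.Agent.H706.WR

open SimpleGraph

variable {V : Type*}

/-- The graph whose edges join the vertices `v ≠ r` with their parents. -/
def parG (r : V) (par : V → V) : SimpleGraph V :=
  SimpleGraph.fromRel (fun u v => u ≠ r ∧ par u = v)

section

variable {r : V} {par : V → V} {ht : V → ℕ} (hp : ∀ v, v ≠ r → ht (par v) + 1 = ht v)

include hp

theorem adj_par {v : V} (hv : v ≠ r) : (parG r par).Adj v (par v) := by
  rw [parG, SimpleGraph.fromRel_adj]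
  refine ⟨fun h => ?_, Or.inl ⟨hv, rfl⟩⟩
  have := hp v hv
  rw [← h] at this
  omega

theorem adj_cases {u v : V} (h : (parG r par).Adj u v) :
    (u ≠ r ∧ par u = v) ∨ (v ≠ r ∧ par v = u) := by
  rw [parG, SimpleGraph.fromRel_adj] at h
  exact h.2

theorem walk_root : ∀ (n : ℕ) (v : V), ht v = n → ∃ p : (parG r par).Walk v r, p.length ≤ n := by
  intro n
  induction n with
  | zero =>
    intro v hv
    by_cases h : v = r
    · subst h
      exact ⟨Walk.nil, le_rfl⟩
    · have := hp v h
      omega
  | succ n ih =>
    intro v hv
    by_cases h : v = r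
    · subst h
      exact ⟨Walk.nil, Nat.zero_le _⟩
    · have h1 := hp v h
      obtain ⟨p, hp'⟩ := ih (par v) (by omega)
      exact ⟨Walk.cons (adj_par hp h) p, by simp only [Walk.length_cons]; omega⟩

theorem conn : (parG r par).Connected := by
  have hr : ∀ v, (parG r par).Reachable v r := fun v => by
    obtain ⟨p, -⟩ := walk_root hp (ht v) v rfl
    exact ⟨p⟩
  haveI : Nonempty V := ⟨r⟩
  exact Connected.mk fun u v => (hr u).trans (hr v).symm

theorem dist_root_le (v : V) : (parG r par).dist v r ≤ ht v := by
  obtain ⟨p, hp'⟩ := walk_root hp (ht v) v rfl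
  exact (dist_le p).trans hp'

theorem dist_le_add (u v : V) : (parG r par).dist u v ≤ ht u + ht v := by
  have h1 := (conn hp).dist_triangle (u := u) (v := r) (w := v)
  have h2 := dist_root_le hp u
  have h3 := dist_root_le hp v
  rw [(parG r par).dist_comm (u := r) (v := v)] at h1
  omega

/-- A function which changes by at most one along the edges bounds the distances from below. -/
theorem le_dist_of_lipschitz (f : V → ℕ)
    (hf : ∀ v, v ≠ r → f v ≤ f (par v) + 1 ∧ f (par v) ≤ f v + 1) (u v : V) :
    f v ≤ f u + (parG r par).dist u v := by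
  have key : ∀ {a b : V} (p : (parG r par).Walk a b), f b ≤ f a + p.length := by
    intro a b p
    induction p with
    | nil => simp
    | cons h p ih =>
      rename_i a b c
      rcases adj_cases hp h with ⟨h1, h2⟩ | ⟨h1, h2⟩
      · have := hf a h1
        rw [h2] at this
        simp only [Walk.length_cons]
        omega
      · have := hf b h1
        rw [h2] at this
        simp only [Walk.length_cons]
        omega
  obtain ⟨p, hp'⟩ := (conn hp).exists_walk_length_eq_dist u v
  rw [← hp']
  exact key p

theorem isTree [Finite V] : (parG r par).IsTree := by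
  classical
  haveI := Fintype.ofFinite V
  rw [isTree_iff_connected_and_card]
  refine ⟨conn hp, ?_⟩
  have e : {v : V // v ≠ r} ≃ (parG r par).edgeSet := by
    refine Equiv.ofBijective
      (fun v => ⟨s(v.1, par v.1), (SimpleGraph.mem_edgeSet _).2 (adj_par hp v.2)⟩) ⟨?_, ?_⟩
    · intro v w h
      have h' : s(v.1, par v.1) = s(w.1, par w.1) := congrArg Subtype.val h
      rw [Sym2.eq_iff] at h'
      rcases h' with h' | h'
      · exact Subtype.ext h'.1
      · have h1 := hp v.1 v.2
        have h2 := hp w.1 w.2
        rw [h'.2] at h1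
        rw [← h'.1] at h2
        omega
    · rintro ⟨e, he⟩
      induction e using Sym2.ind with
      | _ u v =>
        have he' : (parG r par).Adj u v := he
        rcases adj_cases hp he' with ⟨h1, h2⟩ | ⟨h1, h2⟩
        · refine ⟨⟨u, h1⟩, Subtype.ext ?_⟩
          change s(u, par u) = s(u, v)
          rw [h2]
        · refine ⟨⟨v, h1⟩, Subtype.ext ?_⟩
          change s(v, par v) = s(u, v)
          rw [h2]
          exact Sym2.eq_swap
  rw [← Nat.card_congr e]
  rw [Nat.card_eq_fintype_card, Nat.card_eq_fintype_card, Fintype.card_subtype_compl,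
    Fintype.card_subtype_eq]
  have : 0 < Fintype.card V := Fintype.card_pos_iff.2 ⟨r⟩
  omega

end

end Pool.Agent.H706.WR
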